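import Mathlib

/-!
# Bi-Hölder embeddings of the circle by Weierstrass-type functions

For every integer `b ≥ 2` and every `α ∈ (0,1)` there are finitely many `1`-periodic Lipschitz
functions whose Weierstrass functions embed the circle into a Euclidean space such that the
embedding is `α`-bi-Hölder.
-/

namespace Pool.Agent.Results.MP_0a5dd0_an.BiHolder

open Filter Topology Finset

open scoped NNReal

/-- The Weierstrass-type function `W_g(x) = ∑_{k ≥ 0} b^{-αk} g(b^k x)`. -/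
noncomputable def W (b : ℕ) (α : ℝ) (g : ℝ → ℝ) (x : ℝ) : ℝ :=
  ∑' k : ℕ, (b : ℝ) ^ (-(α * k)) * g ((b : ℝ) ^ k * x)

/-- The distance of two points of the circle `ℝ / ℤ`: `min_{n ∈ ℤ} |x - y - n|`. -/
noncomputable def circDist (x y : ℝ) : ℝ := ⨅ n : ℤ, |x - y - n|

/-- The map `Φ(x) = (W_{g_1}(x), …, W_{g_m}(x))` into the Euclidean space `ℝ^m`. -/
noncomputable def Phi (b : ℕ) (α : ℝ) {m : ℕ} (g : Fin m → ℝ → ℝ) (x : ℝ) :
    EuclideanSpace ℝ (Fin m) := WithLp.toLp 2 fun i => W b α (g i) x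

/-- The auxiliary nondecreasing function. -/
noncomputable def H (M : ℝ) (t : ℝ) : ℝ := ⌊t⌋ + min (M * Int.fract t) 1

/-- The test function. -/
noncomputable def G (M : ℝ) (t : ℝ) : ℝ := H M t - t

lemma H_mono {M : ℝ} (hM : 0 ≤ M) : Monotone (H M) := by
  intro s t hst
  unfold H
  have hfl : ⌊s⌋ ≤ ⌊t⌋ := Int.floor_le_floor hst
  rcases eq_or_lt_of_le hfl with h | h
  · have h1 : Int.fract s ≤ Int.fract t := by
      unfold Int.fract
      rw [h]
      linarith
    have h2 : min (M * Int.fract s) 1 ≤ min (M * Int.fract t) 1 :=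
      min_le_min_right _ (mul_le_mul_of_nonneg_left h1 hM)
    rw [h]
    linarith
  · have h1 : (⌊s⌋ : ℝ) + 1 ≤ ⌊t⌋ := by exact_mod_cast h
    have h2 : min (M * Int.fract s) 1 ≤ 1 := min_le_right _ _
    have h3 : 0 ≤ min (M * Int.fract t) 1 :=
      le_min (mul_nonneg hM (Int.fract_nonneg t)) zero_le_one
    linarith

lemma G_eq (M t : ℝ) : G M t = min (M * Int.fract t) 1 - Int.fract t := by
  unfold G H Int.fract
  ring

lemma G_periodic (M : ℝ) : Function.Periodic (G M) 1 := by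
  intro t
  rw [G_eq, G_eq, Int.fract_add_one]

lemma G_mem {M : ℝ} (hM : 1 ≤ M) (t : ℝ) : 0 ≤ G M t ∧ G M t ≤ 1 := by
  rw [G_eq]
  have h1 := Int.fract_nonneg t
  have h2 := Int.fract_lt_one t
  constructor
  · have : Int.fract t ≤ min (M * Int.fract t) 1 := le_min (by nlinarith) h2.le
    linarith
  · have : min (M * Int.fract t) 1 ≤ 1 := min_le_right _ _
    linarith

lemma G_sub_ge {M : ℝ} (hM : 0 ≤ M) {s t : ℝ} (hst : s ≤ t) : -(t - s) ≤ G M t - G M s := by
  have := H_mono hM hst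
  unfold G
  linarith

lemma H_lip {M : ℝ} (hM : 1 ≤ M) {s t : ℝ} (hst : s ≤ t) : H M t - H M s ≤ M * (t - s) := by
  unfold H
  have hfl : ⌊s⌋ ≤ ⌊t⌋ := Int.floor_le_floor hst
  have es : s = ⌊s⌋ + Int.fract s := (Int.floor_add_fract s).symm
  have et : t = ⌊t⌋ + Int.fract t := (Int.floor_add_fract t).symm
  have hs0 := Int.fract_nonneg s
  have hs1 := (Int.fract_lt_one s).le
  have ht0 := Int.fract_nonneg t
  have ht1 := (Int.fract_lt_one t).le
  rcases eq_or_lt_of_le hfl with h | h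
  · have e : t - s = Int.fract t - Int.fract s := by
      rw [es, et, h]
      simp only [Int.fract_intCast_add, Int.fract_fract]
      ring_nf
    have h1 : Int.fract s ≤ Int.fract t := by linarith
    have h2 : min (M * Int.fract t) 1 - min (M * Int.fract s) 1
        ≤ M * (Int.fract t - Int.fract s) := by
      rcases le_total (M * Int.fract s) 1 with h3 | h3
      · rw [min_eq_left h3]
        have := min_le_left (M * Int.fract t) 1
        linarith
      · rw [min_eq_right h3]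
        have := min_le_right (M * Int.fract t) 1
        nlinarith
    rw [e, h]
    linarith
  · have h1 : (⌊s⌋ : ℝ) + 1 ≤ ⌊t⌋ := by exact_mod_cast h
    have e : t - s = (⌊t⌋ - ⌊s⌋) + (Int.fract t - Int.fract s) := by
      have e1 := Int.floor_add_fract s
      have e2 := Int.floor_add_fract t
      linarith
    rw [e]
    have h3 : min (M * Int.fract t) 1 ≤ M * Int.fract t := min_le_left _ _
    have h4 : 1 - min (M * Int.fract s) 1 ≤ M * (1 - Int.fract s) := by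
      rcases le_total (M * Int.fract s) 1 with h5 | h5
      · rw [min_eq_left h5]; nlinarith
      · rw [min_eq_right h5]; nlinarith
    nlinarith

lemma G_lipschitz {M : ℝ} (hM : 1 ≤ M) : ∃ K : ℝ≥0, LipschitzWith K (G M) := by
  refine ⟨(M + 1).toNNReal, LipschitzWith.of_dist_le_mul ?_⟩
  have key : ∀ s t : ℝ, s ≤ t → |G M t - G M s| ≤ (M + 1) * (t - s) := by
    intro s t hst
    have h1 := H_lip hM hst
    have h2 := G_sub_ge (by linarith : 0 ≤ M) hst
    rw [abs_le]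
    unfold G at *
    constructor <;> nlinarith
  intro s t
  rw [Real.coe_toNNReal _ (by linarith), Real.dist_eq, Real.dist_eq]
  rcases le_total s t with h | h
  · rw [abs_sub_comm, abs_sub_comm s t, abs_of_nonneg (by linarith : 0 ≤ t - s)]
    exact key s t h
  · rw [abs_of_nonneg (by linarith : 0 ≤ s - t)]
    exact key t s h

section

variable {b : ℕ} {α : ℝ}

lemma weight_eq (hb : 2 ≤ b) (k : ℕ) : (b : ℝ) ^ (-(α * k)) = ((b : ℝ) ^ (-α)) ^ k := by
  have hb0 : (0 : ℝ) < b := by exact_mod_cast (by omega : 0 < b)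
  rw [← Real.rpow_natCast, ← Real.rpow_mul hb0.le]
  ring_nf

lemma rho_lt (hb : 2 ≤ b) (h0 : 0 < α) : 0 < (b : ℝ) ^ (-α) ∧ (b : ℝ) ^ (-α) < 1 := by
  have hb1 : (1 : ℝ) < b := by exact_mod_cast (by omega : 1 < b)
  exact ⟨by positivity, Real.rpow_lt_one_of_one_lt_of_neg hb1 (by linarith)⟩

lemma summable_weight (hb : 2 ≤ b) (h0 : 0 < α) :
    Summable fun k : ℕ => (b : ℝ) ^ (-(α * k)) := by
  simp only [weight_eq hb]
  exact summable_geometric_of_lt_one (rho_lt hb h0).1.le (rho_lt hb h0).2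

lemma summable_W (hb : 2 ≤ b) (h0 : 0 < α) {g : ℝ → ℝ} {B : ℝ} (hg : ∀ t, |g t| ≤ B) (x : ℝ) :
    Summable fun k : ℕ => (b : ℝ) ^ (-(α * k)) * g ((b : ℝ) ^ k * x) := by
  apply Summable.of_norm_bounded ((summable_weight hb h0).mul_right B)
  intro k
  have hb0 : (0 : ℝ) < b := by exact_mod_cast (by omega : 0 < b)
  rw [Real.norm_eq_abs, abs_mul, abs_of_pos (by positivity : 0 < (b : ℝ) ^ (-(α * k)))]
  exact mul_le_mul_of_nonneg_left (hg _) (by positivity)

/-- The Weierstrass function of a coboundary. -/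
lemma W_cob (hb : 2 ≤ b) (h0 : 0 < α) {h : ℝ → ℝ} {B : ℝ} (hB : ∀ t, |h t| ≤ B) (x : ℝ) :
    W b α (fun t => h t - (b : ℝ) ^ (-α) * h (b * t)) x = h x := by
  unfold W
  have hs := summable_W hb h0 hB x
  have hb0 : (0 : ℝ) < b := by exact_mod_cast (by omega : 0 < b)
  have e : ∀ k : ℕ, (b : ℝ) ^ (-(α * k)) * (h ((b : ℝ) ^ k * x)
      - (b : ℝ) ^ (-α) * h (b * ((b : ℝ) ^ k * x)))
      = (b : ℝ) ^ (-(α * k)) * h ((b : ℝ) ^ k * x)
        - (b : ℝ) ^ (-(α * (k + 1 : ℕ))) * h ((b : ℝ) ^ (k + 1) * x) := by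
    intro k
    rw [weight_eq hb, weight_eq hb, pow_succ, pow_succ]
    ring_nf
  simp only [e]
  have hs' := (summable_nat_add_iff 1).mpr hs
  rw [hs.tsum_sub hs', hs.tsum_eq_zero_add]
  simp

lemma beta_gt (hb : 2 ≤ b) (h1 : α < 1) : 1 < (b : ℝ) * (b : ℝ) ^ (-α) := by
  have hb1 : (1 : ℝ) < b := by exact_mod_cast (by omega : 1 < b)
  have hb0 : (0 : ℝ) < b := by linarith
  have e : (b : ℝ) * (b : ℝ) ^ (-α) = (b : ℝ) ^ (1 - α) := by
    rw [sub_eq_add_neg, Real.rpow_add hb0, Real.rpow_one]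
  rw [e]
  exact Real.one_lt_rpow hb1 (by linarith)

/-- Splitting of the difference of two values. -/
lemma W_sub (hb : 2 ≤ b) (h0 : 0 < α) {g : ℝ → ℝ} {B : ℝ} (hg : ∀ t, |g t| ≤ B) (x y : ℝ)
    (N : ℕ) :
    W b α g y - W b α g x
      = ∑ k ∈ range (N + 1), ((b : ℝ) ^ (-α)) ^ k * (g ((b : ℝ) ^ k * y) - g ((b : ℝ) ^ k * x))
        + ∑' k : ℕ, ((b : ℝ) ^ (-α)) ^ (k + (N + 1))
          * (g ((b : ℝ) ^ (k + (N + 1)) * y) - g ((b : ℝ) ^ (k + (N + 1)) * x)) := by
  have hs : ∀ z, Summable fun k : ℕ => ((b : ℝ) ^ (-α)) ^ k * g ((b : ℝ) ^ k * z) := by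
    intro z
    have := summable_W hb h0 hg z
    simpa only [weight_eq hb] using this
  unfold W
  simp only [weight_eq hb]
  rw [← (hs y).tsum_sub (hs x), ← ((hs y).sub (hs x)).sum_add_tsum_nat_add (N + 1)]
  simp only [mul_sub]

lemma tail_summable (hb : 2 ≤ b) (h0 : 0 < α) (N : ℕ) (c : ℝ) :
    Summable fun k : ℕ => ((b : ℝ) ^ (-α)) ^ (k + (N + 1)) * c := by
  apply Summable.mul_right
  exact (summable_nat_add_iff (N + 1)).mpr
    (summable_geometric_of_lt_one (rho_lt hb h0).1.le (rho_lt hb h0).2)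

lemma tail_tsum (hb : 2 ≤ b) (h0 : 0 < α) (N : ℕ) (c : ℝ) :
    ∑' k : ℕ, ((b : ℝ) ^ (-α)) ^ (k + (N + 1)) * c
      = ((b : ℝ) ^ (-α)) ^ (N + 1) * c / (1 - (b : ℝ) ^ (-α)) := by
  have h1 := (rho_lt hb h0).2
  simp only [pow_add]
  rw [tsum_mul_right, tsum_mul_right, tsum_geometric_of_lt_one (rho_lt hb h0).1.le h1]
  have : 1 - (b : ℝ) ^ (-α) ≠ 0 := by linarith
  field_simp

/-- Tail estimate. -/
lemma tail_summable' (hb : 2 ≤ b) (h0 : 0 < α) {g : ℝ → ℝ} {B : ℝ} (hg : ∀ t, |g t| ≤ B)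
    (x y : ℝ) (N : ℕ) :
    Summable fun k : ℕ => ((b : ℝ) ^ (-α)) ^ (k + (N + 1))
          * (g ((b : ℝ) ^ (k + (N + 1)) * y) - g ((b : ℝ) ^ (k + (N + 1)) * x)) := by
  have hr := (rho_lt hb h0).1
  apply Summable.of_norm_bounded (tail_summable hb h0 N (2 * B))
  intro k
  rw [Real.norm_eq_abs, abs_mul, abs_of_pos (by positivity)]
  apply mul_le_mul_of_nonneg_left _ (by positivity)
  calc _ ≤ |g ((b : ℝ) ^ (k + (N + 1)) * y)| + |g ((b : ℝ) ^ (k + (N + 1)) * x)| := abs_sub _ _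
    _ ≤ 2 * B := by linarith [hg ((b : ℝ) ^ (k + (N + 1)) * y), hg ((b : ℝ) ^ (k + (N + 1)) * x)]

/-- Sum of the increasing geometric progression. -/
lemma head_le (hb : 2 ≤ b) (h1 : α < 1) (N : ℕ) :
    ∑ k ∈ range (N + 1), ((b : ℝ) * (b : ℝ) ^ (-α)) ^ k
      ≤ ((b : ℝ) * (b : ℝ) ^ (-α)) ^ N
        * ((b : ℝ) * (b : ℝ) ^ (-α) / ((b : ℝ) * (b : ℝ) ^ (-α) - 1)) := by
  have hβ := beta_gt hb h1
  rw [geom_sum_eq hβ.ne', pow_succ, mul_div_assoc']
  apply div_le_div_of_nonneg_right _ (by linarith)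
  linarith

/-- Lower estimate for a one-sided Lipschitz function. -/
lemma W_sub_ge (hb : 2 ≤ b) (h0 : 0 < α) (h1 : α < 1) {g : ℝ → ℝ}
    (hg : ∀ t, 0 ≤ g t ∧ g t ≤ 1) (hg' : ∀ s t, s ≤ t → -(t - s) ≤ g t - g s)
    {x y : ℝ} (hxy : x ≤ y) {N k₀ : ℕ} (hk : k₀ ≤ N) (hN : (b : ℝ) ^ N * (y - x) ≤ 1 / 2)
    (hk₀ : 1 - (b : ℝ) ^ k₀ * (y - x) ≤ g ((b : ℝ) ^ k₀ * y) - g ((b : ℝ) ^ k₀ * x)) :
    ((b : ℝ) ^ (-α)) ^ k₀ - ((b : ℝ) ^ (-α)) ^ N
        * ((b : ℝ) * (b : ℝ) ^ (-α) / ((b : ℝ) * (b : ℝ) ^ (-α) - 1) / 2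
          + (b : ℝ) ^ (-α) / (1 - (b : ℝ) ^ (-α)))
      ≤ W b α g y - W b α g x := by
  have hg1 : ∀ t, |g t| ≤ 1 := fun t => abs_le.mpr ⟨by linarith [(hg t).1], (hg t).2⟩
  have hr := (rho_lt hb h0).1
  have hr1 := (rho_lt hb h0).2
  have hβ := beta_gt hb h1
  have hb0 : (0 : ℝ) < b := by exact_mod_cast (by omega : 0 < b)
  rw [W_sub hb h0 hg1 x y N]
  set ρ := (b : ℝ) ^ (-α) with hρ
  have htail : -(ρ ^ (N + 1) / (1 - ρ)) ≤ ∑' k : ℕ, ρ ^ (k + (N + 1))
          * (g ((b : ℝ) ^ (k + (N + 1)) * y) - g ((b : ℝ) ^ (k + (N + 1)) * x)) := by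
    have e : -(ρ ^ (N + 1) / (1 - ρ)) = ∑' k : ℕ, ρ ^ (k + (N + 1)) * (-1) := by
      rw [hρ, tail_tsum hb h0 N (-1)]
      ring
    rw [e]
    apply (tail_summable hb h0 N (-1)).tsum_le_tsum _ (tail_summable' hb h0 hg1 x y N)
    intro k
    apply mul_le_mul_of_nonneg_left _ (by positivity)
    linarith [(hg ((b : ℝ) ^ (k + (N + 1)) * y)).1, (hg ((b : ℝ) ^ (k + (N + 1)) * x)).2]
  have hhead : ρ ^ k₀ - (∑ k ∈ range (N + 1), ((b : ℝ) * ρ) ^ k) * (y - x)
      ≤ ∑ k ∈ range (N + 1), ρ ^ k * (g ((b : ℝ) ^ k * y) - g ((b : ℝ) ^ k * x)) := by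
    have e : ρ ^ k₀ - (∑ k ∈ range (N + 1), ((b : ℝ) * ρ) ^ k) * (y - x)
        = ∑ k ∈ range (N + 1), ((if k = k₀ then ρ ^ k₀ else 0) - ((b : ℝ) * ρ) ^ k * (y - x)) := by
      rw [sum_sub_distrib, ← sum_mul, sum_ite_eq' (range (N + 1)) k₀,
        if_pos (mem_range.mpr (by omega))]
    rw [e]
    apply sum_le_sum
    intro k _
    rw [mul_pow]
    have hp : 0 < ρ ^ k := by positivity
    by_cases h : k = k₀
    · rw [if_pos h, h]
      have hp' : 0 < ρ ^ k₀ := by positivity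
      have := mul_le_mul_of_nonneg_left hk₀ hp'.le
      linarith
    · rw [if_neg h]
      have := mul_le_mul_of_nonneg_left (hg' _ _ (mul_le_mul_of_nonneg_left hxy
        (by positivity : (0 : ℝ) ≤ (b : ℝ) ^ k))) hp.le
      linarith
  have hh := head_le hb h1 N
  rw [← hρ] at hh
  have hyx : 0 ≤ y - x := by linarith
  have hh2 : (∑ k ∈ range (N + 1), ((b : ℝ) * ρ) ^ k) * (y - x)
      ≤ ρ ^ N * ((b : ℝ) * ρ / ((b : ℝ) * ρ - 1) / 2) := by
    calc _ ≤ (((b : ℝ) * ρ) ^ N * ((b : ℝ) * ρ / ((b : ℝ) * ρ - 1))) * (y - x) :=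
        mul_le_mul_of_nonneg_right hh hyx
      _ = ρ ^ N * ((b : ℝ) * ρ / ((b : ℝ) * ρ - 1)) * ((b : ℝ) ^ N * (y - x)) := by
        rw [mul_pow]; ring
      _ ≤ ρ ^ N * ((b : ℝ) * ρ / ((b : ℝ) * ρ - 1)) * (1 / 2) := by
        apply mul_le_mul_of_nonneg_left hN
        have : 0 < (b : ℝ) * ρ - 1 := by linarith
        positivity
      _ = _ := by ring
  have e2 : ρ ^ (N + 1) / (1 - ρ) = ρ ^ N * (ρ / (1 - ρ)) := by
    rw [pow_succ]; ring
  rw [e2] at htail
  linarith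

/-- The classical upper bound. -/
lemma W_holder (hb : 2 ≤ b) (h0 : 0 < α) (h1 : α < 1) {g : ℝ → ℝ} {B L : ℝ}
    (hg : ∀ t, |g t| ≤ B) (hL : ∀ s t, |g t - g s| ≤ L * |t - s|) (hL0 : 0 ≤ L) (hB0 : 0 ≤ B) :
    ∃ C, 0 ≤ C ∧ ∀ x y, |W b α g y - W b α g x| ≤ C * |y - x| ^ α := by
  have hr := (rho_lt hb h0).1
  have hr1 := (rho_lt hb h0).2
  have hβ := beta_gt hb h1
  have hb1 : (1 : ℝ) < b := by exact_mod_cast (by omega : 1 < b)
  have hb0 : (0 : ℝ) < b := by linarith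
  set ρ := (b : ℝ) ^ (-α) with hρ
  have hβ1 : 0 < (b : ℝ) * ρ - 1 := by linarith
  have h1ρ : 0 < 1 - ρ := by linarith
  -- estimate with a given `N`
  have key : ∀ (N : ℕ) (x y : ℝ), (b : ℝ) ^ N * |y - x| ≤ 1 →
      |W b α g y - W b α g x| ≤ ρ ^ N * (L * ((b : ℝ) * ρ / ((b : ℝ) * ρ - 1))
        + 2 * B / (1 - ρ)) := by
    intro N x y hN
    rw [W_sub hb h0 hg x y N, ← hρ]
    have htail : |∑' k : ℕ, ρ ^ (k + (N + 1))
          * (g ((b : ℝ) ^ (k + (N + 1)) * y) - g ((b : ℝ) ^ (k + (N + 1)) * x))|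
          ≤ ρ ^ N * (2 * B / (1 - ρ)) := by
      have hs := tail_tsum hb h0 N (2 * B)
      rw [← hρ] at hs
      have hs' := (tail_summable hb h0 N (2 * B)).hasSum
      rw [← hρ, hs] at hs'
      have := tsum_of_norm_bounded hs' (f := fun k : ℕ => ρ ^ (k + (N + 1))
          * (g ((b : ℝ) ^ (k + (N + 1)) * y) - g ((b : ℝ) ^ (k + (N + 1)) * x))) ?_
      · rw [Real.norm_eq_abs] at this
        refine this.trans ?_
        rw [pow_succ]
        have e : ρ ^ N * ρ * (2 * B) / (1 - ρ) = ρ * (ρ ^ N * (2 * B / (1 - ρ))) := by ring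
        rw [e]
        have : 0 ≤ ρ ^ N * (2 * B / (1 - ρ)) := by positivity
        nlinarith
      · intro k
        rw [Real.norm_eq_abs, abs_mul, abs_of_pos (by positivity)]
        apply mul_le_mul_of_nonneg_left _ (by positivity)
        calc _ ≤ |g ((b : ℝ) ^ (k + (N + 1)) * y)| + |g ((b : ℝ) ^ (k + (N + 1)) * x)| :=
              abs_sub _ _
          _ ≤ 2 * B := by
            linarith [hg ((b : ℝ) ^ (k + (N + 1)) * y), hg ((b : ℝ) ^ (k + (N + 1)) * x)]
    have hhead : |∑ k ∈ range (N + 1), ρ ^ k * (g ((b : ℝ) ^ k * y) - g ((b : ℝ) ^ k * x))|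
        ≤ ρ ^ N * (L * ((b : ℝ) * ρ / ((b : ℝ) * ρ - 1))) := by
      calc _ ≤ ∑ k ∈ range (N + 1), |ρ ^ k * (g ((b : ℝ) ^ k * y) - g ((b : ℝ) ^ k * x))| :=
            abs_sum_le_sum_abs _ _
        _ ≤ ∑ k ∈ range (N + 1), ((b : ℝ) * ρ) ^ k * (L * |y - x|) := by
            apply sum_le_sum
            intro k _
            rw [abs_mul, abs_of_pos (by positivity : 0 < ρ ^ k), mul_pow]
            have h := hL ((b : ℝ) ^ k * x) ((b : ℝ) ^ k * y)
            rw [← mul_sub, abs_mul, abs_of_pos (by positivity : 0 < (b : ℝ) ^ k)] at h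
            have := mul_le_mul_of_nonneg_left h (by positivity : 0 ≤ ρ ^ k)
            linarith
        _ = (∑ k ∈ range (N + 1), ((b : ℝ) * ρ) ^ k) * (L * |y - x|) := by rw [sum_mul]
        _ ≤ (((b : ℝ) * ρ) ^ N * ((b : ℝ) * ρ / ((b : ℝ) * ρ - 1))) * (L * |y - x|) := by
            apply mul_le_mul_of_nonneg_right (head_le hb h1 N) (by positivity)
        _ = ρ ^ N * (L * ((b : ℝ) * ρ / ((b : ℝ) * ρ - 1))) * ((b : ℝ) ^ N * |y - x|) := by
            rw [mul_pow]; ring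
        _ ≤ ρ ^ N * (L * ((b : ℝ) * ρ / ((b : ℝ) * ρ - 1))) * 1 := by
            apply mul_le_mul_of_nonneg_left hN
            positivity
        _ = _ := by ring
    refine (abs_add_le _ _).trans ?_
    rw [mul_add]
    exact add_le_add hhead htail
  set D := L * ((b : ℝ) * ρ / ((b : ℝ) * ρ - 1)) + 2 * B / (1 - ρ) with hD
  have hD0 : 0 ≤ D := by positivity
  refine ⟨D / ρ, by positivity, fun x y => ?_⟩
  rcases eq_or_ne x y with rfl | hne
  · simp only [sub_self, abs_zero]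
    rw [Real.zero_rpow h0.ne']
    simp
  have hη : 0 < |y - x| := abs_pos.mpr (sub_ne_zero.mpr hne.symm)
  rcases le_or_gt |y - x| 1 with hle | hgt
  · -- choose `N`
    obtain ⟨N, hN1, hN2⟩ : ∃ N : ℕ, (b : ℝ) ^ N * |y - x| ≤ 1 ∧ 1 < (b : ℝ) ^ (N + 1) * |y - x| := by
      have hex : ∃ n : ℕ, 1 < (b : ℝ) ^ n * |y - x| := by
        obtain ⟨n, hn⟩ := pow_unbounded_of_one_lt (1 / |y - x|) hb1
        exact ⟨n, by rwa [div_lt_iff₀ hη] at hn⟩
      classical
      obtain ⟨n, hn⟩ : ∃ n, Nat.find hex = n := ⟨_, rfl⟩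
      have h2 := Nat.find_spec hex
      rw [hn] at h2
      rcases n with _ | n
      · simp at h2; linarith
      · refine ⟨n, ?_, h2⟩
        have := Nat.find_min hex (m := n) (by omega)
        exact not_lt.mp this
    refine (key N x y hN1).trans ?_
    have h3 : ρ ^ (N + 1) ≤ |y - x| ^ α := by
      have h4 : ((b : ℝ) ^ (N + 1))⁻¹ ≤ |y - x| := by
        rw [inv_le_iff_one_le_mul₀ (by positivity)]
        linarith
      have h5 := Real.rpow_le_rpow (by positivity) h4 h0.le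
      refine le_trans (le_of_eq ?_) h5
      rw [hρ, Real.inv_rpow (by positivity), ← Real.rpow_natCast, ← Real.rpow_natCast,
        ← Real.rpow_mul hb0.le, ← Real.rpow_mul hb0.le, ← Real.rpow_neg hb0.le]
      ring_nf
    have h6 : ρ ^ N * D = D / ρ * ρ ^ (N + 1) := by
      rw [pow_succ]; field_simp
    rw [h6]
    exact mul_le_mul_of_nonneg_left h3 (by positivity)
  · have h3 : (1 : ℝ) ≤ |y - x| ^ α := Real.one_le_rpow hgt.le h0.le
    have hb' : |W b α g y - W b α g x| ≤ 2 * B / (1 - ρ) := by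
      have hW : ∀ z, |W b α g z| ≤ B / (1 - ρ) := by
        intro z
        unfold W
        simp only [weight_eq hb]
        rw [← hρ]
        have hs := ((summable_geometric_of_lt_one hr.le hr1).mul_right B).hasSum
        rw [tsum_mul_right, tsum_geometric_of_lt_one hr.le hr1] at hs
        have := tsum_of_norm_bounded hs (f := fun k : ℕ => ρ ^ k * g ((b : ℝ) ^ k * z)) ?_
        · rw [Real.norm_eq_abs] at this
          refine this.trans (le_of_eq ?_)
          rw [inv_mul_eq_div]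
        · intro k
          rw [Real.norm_eq_abs, abs_mul, abs_of_pos (by positivity)]
          exact mul_le_mul_of_nonneg_left (hg _) (by positivity)
      have := abs_sub (W b α g y) (W b α g x)
      have e : 2 * B / (1 - ρ) = B / (1 - ρ) + B / (1 - ρ) := by ring
      rw [e]
      linarith [hW x, hW y]
    have h7 : 2 * B / (1 - ρ) ≤ D := by
      rw [hD]
      have : 0 ≤ L * ((b : ℝ) * ρ / ((b : ℝ) * ρ - 1)) := by positivity
      linarith
    have h8 : D ≤ D / ρ := by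
      rw [le_div_iff₀ hr]
      nlinarith
    calc _ ≤ D / ρ := by linarith
      _ = D / ρ * 1 := by ring
      _ ≤ _ := mul_le_mul_of_nonneg_left h3 (by positivity)

/-- Choice of the scale of a number in `(0, 1/2]`. -/
lemma exists_scale (hb : 2 ≤ b) {η : ℝ} (hη : 0 < η) (hη' : η ≤ 1 / 2) :
    ∃ N : ℕ, (b : ℝ) ^ N * η ≤ 1 / 2 ∧ 1 / 2 < (b : ℝ) ^ (N + 1) * η := by
  have hb1 : (1 : ℝ) < b := by exact_mod_cast (by omega : 1 < b)
  have hex : ∃ n : ℕ, 1 / 2 < (b : ℝ) ^ n * η := by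
    obtain ⟨n, hn⟩ := pow_unbounded_of_one_lt (1 / 2 / η) hb1
    exact ⟨n, by rwa [div_lt_iff₀ hη] at hn⟩
  classical
  obtain ⟨n, hn⟩ : ∃ n, Nat.find hex = n := ⟨_, rfl⟩
  have h2 := Nat.find_spec hex
  rw [hn] at h2
  rcases n with _ | n
  · simp only [pow_zero, one_mul] at h2; linarith
  · refine ⟨n, ?_, h2⟩
    have := Nat.find_min hex (m := n) (by omega)
    exact not_lt.mp this

/-- A cell of the grid inside a long enough interval. -/
lemma exists_cell {M : ℕ} (hM : 2 ≤ M) {s t : ℝ} (h : 2 ≤ M * (t - s)) :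
    ∃ i : ℕ, i < M ∧ 1 - (t - s) ≤ G M (t - i / M) - G M (s - i / M) := by
  have hM0 : (0 : ℝ) < M := by exact_mod_cast (by omega : 0 < M)
  have hMz : (M : ℤ) ≠ 0 := by omega
  set l : ℤ := ⌈s * M⌉ with hl
  obtain ⟨i, hi⟩ : ∃ i : ℕ, (i : ℤ) = l % M :=
    ⟨(l % M).toNat, Int.toNat_of_nonneg (Int.emod_nonneg _ hMz)⟩
  have hiM : i < M := by
    have := Int.emod_lt_of_pos l (by omega : (0 : ℤ) < M)
    omega
  have hdecomp : (l : ℝ) = M * (l / (M : ℤ) : ℤ) + i := by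
    have h1 := Int.mul_ediv_add_emod l M
    have h2 : (l : ℤ) = M * (l / M) + i := by rw [hi]; exact h1.symm
    exact_mod_cast h2
  set j : ℤ := l / (M : ℤ) with hj
  have hl1 : s * M ≤ l := Int.le_ceil _
  have hl2 : (l : ℝ) < s * M + 1 := Int.ceil_lt_add_one _
  have hs : s - i / M ≤ j := by
    rw [sub_le_iff_le_add, ← sub_le_iff_le_add']
    rw [show s - (j : ℝ) = (s * M - M * j) / M by field_simp]
    apply div_le_div_of_nonneg_right _ hM0.le
    linarith
  have ht : (j : ℝ) + 1 / M ≤ t - i / M := by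
    have e : t - i / M - (j + 1 / M) = (M * t - i - M * j - 1) / M := by field_simp; ring
    have : 0 ≤ t - i / M - (j + 1 / M) := by
      rw [e]
      apply div_nonneg _ hM0.le
      nlinarith
    linarith
  refine ⟨i, hiM, ?_⟩
  have h1 := H_mono hM0.le hs
  have h2 := H_mono hM0.le ht
  have e1 : H M (j : ℝ) = j := by
    unfold H
    simp
  have hfr : Int.fract (1 / (M : ℝ)) = 1 / M := by
    rw [Int.fract_eq_self]
    refine ⟨by positivity, ?_⟩
    rw [div_lt_one hM0]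
    exact_mod_cast (by omega : 1 < M)
  have e2 : H M ((j : ℝ) + 1 / M) = j + 1 := by
    unfold H
    rw [Int.fract_intCast_add, hfr, Int.floor_intCast_add]
    have hfl : ⌊1 / (M : ℝ)⌋ = 0 := by
      rw [Int.floor_eq_zero_iff]
      exact ⟨by positivity, by
        rw [div_lt_one hM0]
        exact_mod_cast (by omega : 1 < M)⟩
    rw [hfl, mul_one_div_cancel hM0.ne']
    simp
  rw [e1] at h1
  rw [e2] at h2
  unfold G
  linarith

end

/-- The coboundary of `cos (2 π x)`. -/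
noncomputable def cosCob (b : ℕ) (α : ℝ) (t : ℝ) : ℝ :=
  Real.cos (2 * Real.pi * t) - (b : ℝ) ^ (-α) * Real.cos (2 * Real.pi * (b * t))

/-- The coboundary of `sin (2 π x)`. -/
noncomputable def sinCob (b : ℕ) (α : ℝ) (t : ℝ) : ℝ :=
  Real.sin (2 * Real.pi * t) - (b : ℝ) ^ (-α) * Real.sin (2 * Real.pi * (b * t))

/-- The family of test functions. -/
noncomputable def fam (b : ℕ) (α : ℝ) (M : ℕ) (i : Fin (M + 2)) (t : ℝ) : ℝ :=
  if (i : ℕ) < M then G M (t - (i : ℕ) / M)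
  else if (i : ℕ) = M then cosCob b α t else sinCob b α t

section

variable {b : ℕ} {α : ℝ}

lemma cosCob_periodic : Function.Periodic (cosCob b α) 1 := by
  intro t
  unfold cosCob
  have e1 : 2 * Real.pi * (t + 1) = 2 * Real.pi * t + 2 * Real.pi := by ring
  have e2 : 2 * Real.pi * (b * (t + 1)) = 2 * Real.pi * (b * t) + b * (2 * Real.pi) := by ring
  rw [e1, e2, Real.cos_add_two_pi, Real.cos_add_nat_mul_two_pi]

lemma sinCob_periodic : Function.Periodic (sinCob b α) 1 := by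
  intro t
  unfold sinCob
  have e1 : 2 * Real.pi * (t + 1) = 2 * Real.pi * t + 2 * Real.pi := by ring
  have e2 : 2 * Real.pi * (b * (t + 1)) = 2 * Real.pi * (b * t) + b * (2 * Real.pi) := by ring
  rw [e1, e2, Real.sin_add_two_pi, Real.sin_add_nat_mul_two_pi]

lemma cosCob_lip (hb : 2 ≤ b) (h0 : 0 < α) (s t : ℝ) : |cosCob b α t - cosCob b α s|
    ≤ (2 * Real.pi + 2 * Real.pi * b) * |t - s| := by
  have hr := (rho_lt hb h0).1
  have hr1 := (rho_lt hb h0).2
  have hb0 : (0 : ℝ) < b := by exact_mod_cast (by omega : 0 < b)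
  have hpi := Real.pi_pos
  unfold cosCob
  set ρ := (b : ℝ) ^ (-α)
  have h1 := Real.abs_cos_sub_cos_le (2 * Real.pi * t) (2 * Real.pi * s)
  have h2 := Real.abs_cos_sub_cos_le (2 * Real.pi * (b * t)) (2 * Real.pi * (b * s))
  rw [← mul_sub, abs_mul, abs_of_pos (by positivity : 0 < 2 * Real.pi)] at h1
  rw [← mul_sub, ← mul_sub, abs_mul (2 * Real.pi), abs_mul (b : ℝ),
    abs_of_pos (by positivity : 0 < 2 * Real.pi), abs_of_pos hb0] at h2
  have e : Real.cos (2 * Real.pi * t) - ρ * Real.cos (2 * Real.pi * (b * t))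
      - (Real.cos (2 * Real.pi * s) - ρ * Real.cos (2 * Real.pi * (b * s)))
      = (Real.cos (2 * Real.pi * t) - Real.cos (2 * Real.pi * s))
        - ρ * (Real.cos (2 * Real.pi * (b * t)) - Real.cos (2 * Real.pi * (b * s))) := by ring
  rw [e]
  refine (abs_sub _ _).trans ?_
  rw [abs_mul, abs_of_pos hr]
  have h3 : ρ * |Real.cos (2 * Real.pi * (b * t)) - Real.cos (2 * Real.pi * (b * s))|
      ≤ 1 * |Real.cos (2 * Real.pi * (b * t)) - Real.cos (2 * Real.pi * (b * s))| :=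
    mul_le_mul_of_nonneg_right hr1.le (abs_nonneg _)
  nlinarith

lemma sinCob_lip (hb : 2 ≤ b) (h0 : 0 < α) (s t : ℝ) : |sinCob b α t - sinCob b α s|
    ≤ (2 * Real.pi + 2 * Real.pi * b) * |t - s| := by
  have hr := (rho_lt hb h0).1
  have hr1 := (rho_lt hb h0).2
  have hb0 : (0 : ℝ) < b := by exact_mod_cast (by omega : 0 < b)
  have hpi := Real.pi_pos
  unfold sinCob
  set ρ := (b : ℝ) ^ (-α)
  have h1 := Real.abs_sin_sub_sin_le (2 * Real.pi * t) (2 * Real.pi * s)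
  have h2 := Real.abs_sin_sub_sin_le (2 * Real.pi * (b * t)) (2 * Real.pi * (b * s))
  rw [← mul_sub, abs_mul, abs_of_pos (by positivity : 0 < 2 * Real.pi)] at h1
  rw [← mul_sub, ← mul_sub, abs_mul (2 * Real.pi), abs_mul (b : ℝ),
    abs_of_pos (by positivity : 0 < 2 * Real.pi), abs_of_pos hb0] at h2
  have e : Real.sin (2 * Real.pi * t) - ρ * Real.sin (2 * Real.pi * (b * t))
      - (Real.sin (2 * Real.pi * s) - ρ * Real.sin (2 * Real.pi * (b * s)))
      = (Real.sin (2 * Real.pi * t) - Real.sin (2 * Real.pi * s))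
        - ρ * (Real.sin (2 * Real.pi * (b * t)) - Real.sin (2 * Real.pi * (b * s))) := by ring
  rw [e]
  refine (abs_sub _ _).trans ?_
  rw [abs_mul, abs_of_pos hr]
  have h3 : ρ * |Real.sin (2 * Real.pi * (b * t)) - Real.sin (2 * Real.pi * (b * s))|
      ≤ 1 * |Real.sin (2 * Real.pi * (b * t)) - Real.sin (2 * Real.pi * (b * s))| :=
    mul_le_mul_of_nonneg_right hr1.le (abs_nonneg _)
  nlinarith

lemma cosCob_bdd (hb : 2 ≤ b) (h0 : 0 < α) (t : ℝ) : |cosCob b α t| ≤ 2 := by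
  have hr := (rho_lt hb h0).1
  have hr1 := (rho_lt hb h0).2
  unfold cosCob
  refine (abs_sub _ _).trans ?_
  rw [abs_mul, abs_of_pos hr]
  have h1 := Real.abs_cos_le_one (2 * Real.pi * t)
  have h2 := Real.abs_cos_le_one (2 * Real.pi * (b * t))
  nlinarith [abs_nonneg (Real.cos (2 * Real.pi * (b * t)))]

lemma sinCob_bdd (hb : 2 ≤ b) (h0 : 0 < α) (t : ℝ) : |sinCob b α t| ≤ 2 := by
  have hr := (rho_lt hb h0).1
  have hr1 := (rho_lt hb h0).2
  unfold sinCob
  refine (abs_sub _ _).trans ?_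
  rw [abs_mul, abs_of_pos hr]
  have h1 := Real.abs_sin_le_one (2 * Real.pi * t)
  have h2 := Real.abs_sin_le_one (2 * Real.pi * (b * t))
  nlinarith [abs_nonneg (Real.sin (2 * Real.pi * (b * t)))]

lemma G_lip {M : ℝ} (hM : 1 ≤ M) (s t : ℝ) : |G M t - G M s| ≤ (M + 1) * |t - s| := by
  have key : ∀ s t : ℝ, s ≤ t → |G M t - G M s| ≤ (M + 1) * |t - s| := by
    intro s t hst
    have h1 := H_lip hM hst
    have h2 := G_sub_ge (by linarith : 0 ≤ M) hst
    rw [abs_of_nonneg (by linarith : 0 ≤ t - s), abs_le]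
    unfold G at *
    constructor <;> nlinarith
  rcases le_total s t with h | h
  · exact key s t h
  · rw [abs_sub_comm, abs_sub_comm t s]
    exact key t s h

/-- All the functions of the family are bounded and Lipschitz. -/
lemma fam_bounds (hb : 2 ≤ b) (h0 : 0 < α) {M : ℕ} (hM : 1 ≤ M) (i : Fin (M + 2)) :
    ∃ L : ℝ, 0 ≤ L ∧ (∀ t, |fam b α M i t| ≤ 2) ∧
      ∀ s t, |fam b α M i t - fam b α M i s| ≤ L * |t - s| := by
  have hpi := Real.pi_pos
  have hM' : (1 : ℝ) ≤ M := by exact_mod_cast hM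
  by_cases h1 : (i : ℕ) < M
  · refine ⟨M + 1, by positivity, fun t => ?_, fun s t => ?_⟩
    · simp only [fam, if_pos h1]
      have := G_mem hM' (t - (i : ℕ) / M)
      rw [abs_of_nonneg this.1]
      linarith
    · simp only [fam, if_pos h1]
      refine (G_lip hM' _ _).trans (le_of_eq ?_)
      congr 2
      ring
  by_cases h2 : (i : ℕ) = M
  · refine ⟨2 * Real.pi + 2 * Real.pi * b, by positivity, fun t => ?_, fun s t => ?_⟩
    · simp only [fam, if_neg h1, if_pos h2]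
      exact cosCob_bdd hb h0 t
    · simp only [fam, if_neg h1, if_pos h2]
      exact cosCob_lip hb h0 s t
  · refine ⟨2 * Real.pi + 2 * Real.pi * b, by positivity, fun t => ?_, fun s t => ?_⟩
    · simp only [fam, if_neg h1, if_neg h2]
      exact sinCob_bdd hb h0 t
    · simp only [fam, if_neg h1, if_neg h2]
      exact sinCob_lip hb h0 s t

lemma fam_periodic {M : ℕ} (i : Fin (M + 2)) : Function.Periodic (fam b α M i) 1 := by
  intro t
  unfold fam
  have e : t + 1 - (i : ℕ) / M = (t - (i : ℕ) / M) + 1 := by ring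
  rw [e, G_periodic (M : ℝ) (t - (i : ℕ) / M), cosCob_periodic t, sinCob_periodic t]

/-- The values of the Weierstrass functions of the two coboundaries. -/
lemma W_cosCob (hb : 2 ≤ b) (h0 : 0 < α) (x : ℝ) : W b α (cosCob b α) x
    = Real.cos (2 * Real.pi * x) :=
  W_cob hb h0 (h := fun t => Real.cos (2 * Real.pi * t)) (B := 1)
    (fun _ => Real.abs_cos_le_one _) x

lemma W_sinCob (hb : 2 ≤ b) (h0 : 0 < α) (x : ℝ) : W b α (sinCob b α) x
    = Real.sin (2 * Real.pi * x) :=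
  W_cob hb h0 (h := fun t => Real.sin (2 * Real.pi * t)) (B := 1)
    (fun _ => Real.abs_sin_le_one _) x

/-- One of the two coordinates of the circle moves. -/
lemma circle_moves {x y : ℝ} (hxy : x < y) (h : y - x ≤ 1 / 2) :
    2 * (y - x) ≤ |Real.cos (2 * Real.pi * y) - Real.cos (2 * Real.pi * x)| ∨
    2 * (y - x) ≤ |Real.sin (2 * Real.pi * y) - Real.sin (2 * Real.pi * x)| := by
  have hpi := Real.pi_pos
  by_contra hcon
  push Not at hcon
  obtain ⟨h1, h2⟩ := hcon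
  have h3 := mul_self_lt_mul_self (abs_nonneg _) h1
  have h4 := mul_self_lt_mul_self (abs_nonneg _) h2
  rw [abs_mul_abs_self] at h3 h4
  have e : (Real.cos (2 * Real.pi * y) - Real.cos (2 * Real.pi * x))
        * (Real.cos (2 * Real.pi * y) - Real.cos (2 * Real.pi * x))
      + (Real.sin (2 * Real.pi * y) - Real.sin (2 * Real.pi * x))
        * (Real.sin (2 * Real.pi * y) - Real.sin (2 * Real.pi * x))
      = 4 * Real.sin (Real.pi * (y - x)) ^ 2 := by
    have e1 := Real.sin_sq_add_cos_sq (2 * Real.pi * y)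
    have e2 := Real.sin_sq_add_cos_sq (2 * Real.pi * x)
    have e3 : Real.cos (2 * (Real.pi * (y - x)))
        = Real.cos (2 * Real.pi * y) * Real.cos (2 * Real.pi * x)
          + Real.sin (2 * Real.pi * y) * Real.sin (2 * Real.pi * x) := by
      rw [← Real.cos_sub]; ring_nf
    have e4 := Real.cos_two_mul (Real.pi * (y - x))
    have e5 := Real.sin_sq_add_cos_sq (Real.pi * (y - x))
    nlinarith
  have hsin : 2 * (y - x) ≤ Real.sin (Real.pi * (y - x)) := by
    have := Real.mul_le_sin (x := Real.pi * (y - x)) (by nlinarith) (by nlinarith)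
    refine le_trans (le_of_eq ?_) this
    field_simp
  have h5 : (2 * (y - x)) * (2 * (y - x)) ≤ Real.sin (Real.pi * (y - x))
      * Real.sin (Real.pi * (y - x)) := mul_self_le_mul_self (by linarith) hsin
  have h6 : 0 < (y - x) := by linarith
  nlinarith [mul_pos h6 h6]

/-- The lower bound for one coordinate. -/
lemma exists_coord (hb : 2 ≤ b) (h0 : 0 < α) (h1 : α < 1) :
    ∃ (M : ℕ) (c : ℝ), 1 ≤ M ∧ 0 < c ∧ ∀ x y : ℝ, x < y → y - x ≤ 1 / 2 →
      ∃ i : Fin (M + 2), c * (y - x) ^ α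
        ≤ |W b α (fam b α M i) y - W b α (fam b α M i) x| := by
  have hr := (rho_lt hb h0).1
  have hr1 := (rho_lt hb h0).2
  have hβ := beta_gt hb h1
  have hb1 : (1 : ℝ) < b := by exact_mod_cast (by omega : 1 < b)
  have hb0 : (0 : ℝ) < b := by linarith
  set ρ := (b : ℝ) ^ (-α) with hρ
  set D := (b : ℝ) * ρ / ((b : ℝ) * ρ - 1) / 2 + ρ / (1 - ρ) with hD
  have hD0 : 0 < D := by
    have : 0 < (b : ℝ) * ρ - 1 := by linarith
    have : 0 < 1 - ρ := by linarith
    positivity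
  obtain ⟨K, hK⟩ : ∃ K : ℕ, ρ ^ K < 1 / (1 + D) :=
    exists_pow_lt_of_lt_one (by positivity) hr1
  have hK' : ρ ^ K * (1 + D) ≤ 1 := by
    rw [lt_div_iff₀ (by positivity)] at hK
    exact hK.le
  have hbK : (0 : ℝ) < (b : ℝ) ^ K := by positivity
  refine ⟨4 * b ^ (K + 1), min 1 ((b : ℝ) ^ K)⁻¹, ?_, by positivity, fun x y hxy hle => ?_⟩
  · have : 0 < b ^ (K + 1) := by positivity
    omega
  have hη : 0 < y - x := by linarith
  obtain ⟨N, hN1, hN2⟩ := exists_scale hb hη hle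
  rcases le_or_gt K N with hKN | hKN
  · -- small distances
    have hsplit : (b : ℝ) ^ (N + 1) = (b : ℝ) ^ (N - K) * (b : ℝ) ^ (K + 1) := by
      rw [← pow_add]; congr 1; omega
    have hMr : ((4 * b ^ (K + 1) : ℕ) : ℝ) = 4 * (b : ℝ) ^ (K + 1) := by push_cast; ring
    have hcell : 2 ≤ ((4 * b ^ (K + 1) : ℕ) : ℝ) * ((b : ℝ) ^ (N - K) * y
        - (b : ℝ) ^ (N - K) * x) := by
      rw [hMr, ← mul_sub]
      rw [hsplit] at hN2
      nlinarith
    obtain ⟨i, hiM, hi⟩ := exists_cell (M := 4 * b ^ (K + 1)) (by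
      have : 0 < b ^ (K + 1) := by positivity
      omega) hcell
    refine ⟨⟨i, by omega⟩, ?_⟩
    have hM1 : (1 : ℝ) ≤ ((4 * b ^ (K + 1) : ℕ) : ℝ) := by
      have : 0 < b ^ (K + 1) := by positivity
      exact_mod_cast (by omega : 1 ≤ 4 * b ^ (K + 1))
    have hfam : fam b α (4 * b ^ (K + 1)) ⟨i, by omega⟩
        = fun t => G ((4 * b ^ (K + 1) : ℕ) : ℝ) (t - (i : ℕ) / ((4 * b ^ (K + 1) : ℕ) : ℝ)) := by
      funext t
      simp only [fam, if_pos hiM]
    rw [hfam]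
    have hmain := W_sub_ge hb h0 h1
      (g := fun t => G ((4 * b ^ (K + 1) : ℕ) : ℝ) (t - (i : ℕ) / ((4 * b ^ (K + 1) : ℕ) : ℝ)))
      (fun t => G_mem hM1 _)
      (fun s t hst => by
        have := G_sub_ge (by linarith : 0 ≤ ((4 * b ^ (K + 1) : ℕ) : ℝ))
          (sub_le_sub_right hst ((i : ℕ) / ((4 * b ^ (K + 1) : ℕ) : ℝ)))
        refine le_trans (le_of_eq ?_) this
        ring)
      hxy.le (N := N) (k₀ := N - K) (by omega) hN1
      (by rw [mul_sub]; exact hi)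
    rw [← hρ] at hmain
    have hpow : ρ ^ N * (1 + D) ≤ ρ ^ (N - K) := by
      have e : ρ ^ N = ρ ^ (N - K) * ρ ^ K := by
        rw [← pow_add]; congr 1; omega
      rw [e, mul_assoc]
      have : 0 < ρ ^ (N - K) := by positivity
      nlinarith
    have h5 : (y - x) ^ α ≤ ρ ^ N := by
      have h6 : y - x ≤ ((b : ℝ) ^ N)⁻¹ := by
        rw [← one_div, le_div_iff₀ (by positivity)]
        linarith
      refine (Real.rpow_le_rpow hη.le h6 h0.le).trans (le_of_eq ?_)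
      rw [hρ, Real.inv_rpow (by positivity), ← Real.rpow_natCast, ← Real.rpow_natCast,
        ← Real.rpow_mul hb0.le, ← Real.rpow_mul hb0.le, ← Real.rpow_neg hb0.le]
      ring_nf
    have h7 : 0 < (y - x) ^ α := by positivity
    have h8 : min 1 ((b : ℝ) ^ K)⁻¹ ≤ 1 := min_le_left _ _
    refine le_trans ?_ (le_abs_self _)
    have h9 : ρ ^ N * (1 + D) = ρ ^ N + ρ ^ N * D := by ring
    nlinarith
  · -- large distances
    have h3 : ((b : ℝ) ^ K)⁻¹ ≤ 2 * (y - x) := by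
      have h4 : (b : ℝ) ^ (N + 1) ≤ (b : ℝ) ^ K := pow_le_pow_right₀ hb1.le (by omega)
      rw [inv_le_iff_one_le_mul₀ hbK]
      nlinarith
    have h5 : (y - x) ^ α ≤ 1 := Real.rpow_le_one hη.le (by linarith) h0.le
    have h6 : min 1 ((b : ℝ) ^ K)⁻¹ * (y - x) ^ α ≤ 2 * (y - x) := by
      calc _ ≤ ((b : ℝ) ^ K)⁻¹ * 1 :=
            mul_le_mul (min_le_right _ _) h5 (by positivity) (by positivity)
        _ ≤ _ := by linarith
    rcases circle_moves hxy hle with h | h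
    · refine ⟨⟨4 * b ^ (K + 1), by omega⟩, ?_⟩
      have hfam : fam b α (4 * b ^ (K + 1)) ⟨4 * b ^ (K + 1), by omega⟩ = cosCob b α := by
        funext t
        simp [fam]
      rw [hfam, W_cosCob hb h0, W_cosCob hb h0]
      exact h6.trans h
    · refine ⟨⟨4 * b ^ (K + 1) + 1, by omega⟩, ?_⟩
      have hfam : fam b α (4 * b ^ (K + 1)) ⟨4 * b ^ (K + 1) + 1, by omega⟩ = sinCob b α := by
        funext t
        simp [fam]
      rw [hfam, W_sinCob hb h0, W_sinCob hb h0]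
      exact h6.trans h

end

lemma W_periodic {b : ℕ} {α : ℝ} {g : ℝ → ℝ} (hg : Function.Periodic g 1) (x : ℝ) (n : ℤ) :
    W b α g (x + n) = W b α g x := by
  unfold W
  congr 1
  funext k
  congr 1
  have e : (b : ℝ) ^ k * (x + n) = (b : ℝ) ^ k * x + ((b ^ k * n : ℤ) : ℝ) * 1 := by
    push_cast; ring
  rw [e, (hg.int_mul (b ^ k * n)) _]

/-- **Theorem.** For every integer `b ≥ 2` and every `α ∈ (0,1)` there are finitely many
`1`-periodic Lipschitz functions `g₁, …, g_m` such that the Weierstrass embedding is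
`α`-bi-Hölder on the circle. -/
theorem result (b : ℕ) (hb : 2 ≤ b) (α : ℝ) (h0 : 0 < α) (h1 : α < 1) :
    ∃ (m : ℕ) (g : Fin m → ℝ → ℝ), 1 ≤ m ∧
      (∀ i, Function.Periodic (g i) 1 ∧ ∃ K : ℝ≥0, LipschitzWith K (g i)) ∧
      ∃ C : ℝ, 1 ≤ C ∧ ∀ x y : ℝ,
        C⁻¹ * circDist x y ^ α ≤ ‖Phi b α g x - Phi b α g y‖ ∧
        ‖Phi b α g x - Phi b α g y‖ ≤ C * circDist x y ^ α := by
  obtain ⟨M, c, hM, hc, hcoord⟩ := exists_coord hb h0 h1
  have hbd := fun i => fam_bounds (b := b) (α := α) hb h0 hM i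
  choose L hL0 hL1 hL2 using hbd
  have hup := fun i => W_holder hb h0 h1 (hL1 i) (hL2 i) (hL0 i) (by norm_num)
  choose Cu hCu0 hCu using hup
  set S := ∑ i, Cu i with hS
  have hS0 : 0 ≤ S := sum_nonneg fun i _ => hCu0 i
  set g := fam b α M with hg
  have hWp : ∀ i x (n : ℤ), W b α (g i) (x + n) = W b α (g i) x :=
    fun i x n => W_periodic (fam_periodic i) x n
  have hPhi : ∀ (y : ℝ) (n : ℤ), Phi b α g (y + n) = Phi b α g y := by
    intro y n
    unfold Phi
    congr 1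
    funext i
    exact hWp i y n
  have hcoordn : ∀ x y i, (Phi b α g x - Phi b α g y) i = W b α (g i) x - W b α (g i) y := by
    intro x y i
    simp [Phi]
  -- upper bound on the line
  have hupper : ∀ x y : ℝ, ‖Phi b α g x - Phi b α g y‖ ≤ S * |x - y| ^ α := by
    intro x y
    rw [EuclideanSpace.norm_eq]
    apply Real.sqrt_le_iff.mpr
    refine ⟨by positivity, ?_⟩
    refine (sum_sq_le_sq_sum_of_nonneg fun i _ => norm_nonneg _).trans ?_
    apply pow_le_pow_left₀ (sum_nonneg fun i _ => norm_nonneg _)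
    rw [hS, sum_mul]
    apply sum_le_sum
    intro i _
    rw [hcoordn, Real.norm_eq_abs]
    exact hCu i y x
  -- lower bound on the line
  have hlow1 : ∀ x y : ℝ, x < y → y - x ≤ 1 / 2 →
      c * (y - x) ^ α ≤ ‖Phi b α g x - Phi b α g y‖ := by
    intro x y hxy h
    obtain ⟨i, hi⟩ := hcoord x y hxy h
    refine hi.trans ?_
    rw [abs_sub_comm, ← hcoordn, ← Real.norm_eq_abs]
    exact PiLp.norm_apply_le _ i
  have hlow : ∀ x y : ℝ, |x - y| ≤ 1 / 2 →
      c * |x - y| ^ α ≤ ‖Phi b α g x - Phi b α g y‖ := by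
    intro x y h
    rcases lt_trichotomy x y with hlt | heq | hgt
    · rw [abs_sub_comm, abs_of_pos (by linarith : 0 < y - x)] at h ⊢
      exact hlow1 x y hlt h
    · rw [heq]
      simp only [sub_self, abs_zero, Real.zero_rpow h0.ne', mul_zero]
      exact norm_nonneg _
    · rw [abs_of_pos (by linarith : 0 < x - y)] at h ⊢
      rw [norm_sub_rev]
      exact hlow1 y x hgt h
  refine ⟨M + 2, g, by omega, fun i => ⟨fam_periodic i, ⟨(L i).toNNReal, ?_⟩⟩, ?_⟩
  · apply LipschitzWith.of_dist_le_mul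
    intro s t
    rw [Real.coe_toNNReal _ (hL0 i), Real.dist_eq, Real.dist_eq]
    exact hL2 i t s
  have hcirc0 : ∀ x y, 0 ≤ circDist x y := fun x y => Real.iInf_nonneg fun n => abs_nonneg _
  have hcle : ∀ (x y : ℝ) (n : ℤ), circDist x y ≤ |x - y - n| := fun x y n =>
    ciInf_le ⟨0, by rintro _ ⟨m, rfl⟩; exact abs_nonneg _⟩ n
  set C := max 1 (max c⁻¹ (S + 1)) with hC
  have hC1 : 1 ≤ C := le_max_left _ _
  have hC2 : c⁻¹ ≤ C := (le_max_left _ _).trans (le_max_right _ _)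
  have hC3 : S + 1 ≤ C := (le_max_right _ _).trans (le_max_right _ _)
  have hC0 : 0 < C := by linarith
  refine ⟨C, hC1, fun x y => ⟨?_, ?_⟩⟩
  · have h2 := hlow x (y + round (x - y)) (by
      have := abs_sub_round (x - y)
      rwa [sub_sub] at this)
    rw [hPhi] at h2
    refine le_trans ?_ h2
    have h3 : C⁻¹ ≤ c := by
      rw [inv_le_comm₀ hC0 hc]; exact hC2
    have h4 : circDist x y ≤ |x - (y + round (x - y))| := by
      rw [← sub_sub]; exact hcle x y _
    have h5 : circDist x y ^ α ≤ |x - (y + round (x - y))| ^ α :=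
      Real.rpow_le_rpow (hcirc0 x y) h4 h0.le
    exact mul_le_mul h3 h5 (Real.rpow_nonneg (hcirc0 x y) _) hc.le
  · -- use the upper bound for all the translates
    have h2 : ∀ n : ℤ, ‖Phi b α g x - Phi b α g y‖ ≤ C * |x - y - n| ^ α := by
      intro n
      rw [← hPhi y n]
      refine (hupper x (y + n)).trans ?_
      rw [← sub_sub]
      have : 0 ≤ |x - y - n| ^ α := by positivity
      nlinarith
    have h3 : ∀ n : ℤ, (‖Phi b α g x - Phi b α g y‖ / C) ^ (α⁻¹) ≤ |x - y - n| := by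
      intro n
      rw [Real.rpow_inv_le_iff_of_pos (by positivity) (abs_nonneg _) h0, div_le_iff₀ hC0, mul_comm]
      exact h2 n
    have h4 : (‖Phi b α g x - Phi b α g y‖ / C) ^ (α⁻¹) ≤ circDist x y := le_ciInf h3
    rw [Real.rpow_inv_le_iff_of_pos (by positivity) (hcirc0 x y) h0, div_le_iff₀ hC0, mul_comm]
      at h4
    exact h4

end Pool.Agent.Results.MP_0a5dd0_an.BiHolder
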